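import Pool.Agent.W424.PC.Lat

/-!
# The argument of Duminil-Copin and Tassion
-/

set_option autoImplicit false
set_option linter.all false
set_option linter.deprecated false

open MeasureTheory Set

namespace Pool.Agent.W424.PC

open Pool.Agent.W783.PC

variable {n : ℕ}

/-- The differential inequality of Duminil-Copin and Tassion. -/
lemma piv_lower (hI : S_indep) (hD : S_depmeas) (r : Ix n → unitInterval) (k : ℕ)
    (bF : Finset (V n)) (hbF : ∀ v, v ∈ bF ↔ v ∈ (CB k k : Set (V n)))
    (E : Finset (Ix n)) (hE : ∀ e, e ∈ E ↔ e ∈ nnI (CB k k : Set (V n)))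
    (hphi : ∀ S C : Finset (V n), (0 : V n) ∈ S → (∀ y ∈ S, y ∈ (CB k k : Set (V n)) ∧
      y ∉ Bd n k) → (∀ v, v ∈ C ↔ v ∈ (CB k k : Set (V n)) ∧ v ∉ S) →
      open scoped Classical in
      1 ≤ ∑ z ∈ (S ×ˢ C).filter (fun z => NN z.1 z.2),
        (pm r).real {ω | (H ω (S : Set (V n))).Reachable 0 z.1}) :
    1 - (pm r).real (arm n k) ≤ ∑ e ∈ E, (pm r).real (Piv (arm n k) e ∩ {ω | ω e = false}) := by
  classical
  set μ := pm r with hμ
  set R : Set (V n) := CB k k with hR
  set EC : Finset (V n) → Set (Cfg n) := fun C => {ω | clu ω R (Bd n k) = (C : Set (V n))} with hEC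
  set Cs : Finset (Finset (V n)) :=
    bF.powerset.filter (fun C => (0 : V n) ∉ C ∧ Bd n k ⊆ (C : Set (V n))) with hCs
  have hin : ∀ ω, ∀ v ∈ clu ω R (Bd n k), v ∈ R := by
    rintro ω v ⟨a, ha, hr⟩
    exact reach_mem hr ha.1
  have hsub : ∀ ω, Bd n k ⊆ clu ω R (Bd n k) := fun ω v hv =>
    ⟨v, hv, SimpleGraph.Reachable.refl _⟩
  have harm : ∀ ω, ω ∈ arm n k ↔ (0 : V n) ∈ clu ω R (Bd n k) := fun ω => Iff.rfl
  have hfin : (nnI R).Finite := nnI_finite (CB_finite k k)
  have mdep : ∀ (A : Set (Cfg n)), DepOn A (nnI R) → MeasurableSet A := by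
    intro A hA
    refine hD _ hfin.toFinset A ?_
    rw [Set.Finite.coe_toFinset]; exact hA
  have tchsub : ∀ C : Set (V n), tch R C ⊆ nnI R := by
    rintro C c ⟨x, y, hx, hy, _, hxy, rfl⟩
    exact ⟨x, y, hx, hy, hxy, rfl⟩
  have mEC : ∀ C, MeasurableSet (EC C) := fun C =>
    mdep _ (dep_mono (dep_clu R (Bd n k) (C : Set (V n))) (tchsub _))
  have hdisj : ∀ C C' : Finset (V n), C ≠ C' → Disjoint (EC C) (EC C') := by
    intro C C' hne
    rw [Set.disjoint_left]
    intro ω h1 h2
    apply hne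
    have h1' : clu ω R (Bd n k) = (C : Set (V n)) := h1
    have h2' : clu ω R (Bd n k) = (C' : Set (V n)) := h2
    exact Finset.coe_injective (h1'.symm.trans h2')
  have hcompl : (arm n k)ᶜ = ⋃ C ∈ Cs, EC C := by
    ext ω
    rw [mem_compl_iff, harm]
    simp only [mem_iUnion, exists_prop]
    constructor
    · intro h
      refine ⟨bF.filter (fun v => v ∈ clu ω R (Bd n k)), ?_, ?_⟩
      · rw [hCs, Finset.mem_filter, Finset.mem_powerset]
        refine ⟨Finset.filter_subset _ _, ?_, ?_⟩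
        · rw [Finset.mem_filter]; exact fun h' => h h'.2
        · intro v hv
          rw [Finset.mem_coe, Finset.mem_filter, hbF]
          exact ⟨hv.1, hsub _ hv⟩
      · show clu ω R (Bd n k) = _
        ext v
        rw [Finset.mem_coe, Finset.mem_filter, hbF]
        exact ⟨fun h => ⟨hin ω v h, h⟩, fun h => h.2⟩
    · rintro ⟨C, hC, hE'⟩
      have hE'' : clu ω R (Bd n k) = (C : Set (V n)) := hE'
      rw [hCs, Finset.mem_filter] at hC
      rw [hE'']
      exact hC.2.1
  have marm : MeasurableSet (arm n k) := mdep _ (arm_dep k)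
  have hone : 1 - μ.real (arm n k) = ∑ C ∈ Cs, μ.real (EC C) := by
    have h1 := probReal_compl_eq_one_sub (μ := μ) marm
    rw [← h1, hcompl, measureReal_biUnion_finset]
    · intro C _ C' _ hne
      exact hdisj C C' hne
    · intro C _; exact mEC C
  -- lower bound for a single C
  have hC : ∀ C ∈ Cs, μ.real (EC C) ≤ ∑ e ∈ E, μ.real ((Piv (arm n k) e ∩
      {ω | ω e = false}) ∩ EC C) := by
    intro C hC
    rw [hCs, Finset.mem_filter, Finset.mem_powerset] at hC
    obtain ⟨hC1, hC2, hC3⟩ := hC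
    set S : Finset (V n) := bF \ C with hS
    have h0S : (0 : V n) ∈ S := by
      rw [hS, Finset.mem_sdiff, hbF]
      exact ⟨zero_CB k, hC2⟩
    have hSmem : ∀ x ∈ S, x ∈ R ∧ x ∉ C ∧ x ∉ Bd n k := by
      intro x hx
      rw [hS, Finset.mem_sdiff, hbF] at hx
      exact ⟨hx.1, hx.2, fun h => hx.2 (hC3 h)⟩
    have hCmem : ∀ v, v ∈ C ↔ v ∈ R ∧ v ∉ S := by
      intro v
      rw [hS, Finset.mem_sdiff, hbF]
      constructor
      · intro h
        exact ⟨(hbF v).1 (hC1 h), fun h' => h'.2 h⟩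
      · rintro ⟨h1, h2⟩
        by_contra h3
        exact h2 ⟨h1, h3⟩
    set Z := (S ×ˢ C).filter (fun z : V n × V n => NN z.1 z.2) with hZ
    have hbd : ∀ z ∈ Z, z.1 ∈ S ∧ z.2 ∈ C ∧ NN z.1 z.2 := by
      intro z hz
      rw [hZ, Finset.mem_filter, Finset.mem_product] at hz
      exact ⟨hz.1.1, hz.1.2, hz.2⟩
    have hinj : Set.InjOn (fun z : V n × V n => (Sum.inr s(z.1, z.2) : Ix n)) (Z : Set _) := by
      intro z hz z' hz' h
      have g1 := hbd z hz
      have g2 := hbd z' hz'
      simp only [Sum.inr.injEq] at h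
      rw [Sym2.eq_iff] at h
      rcases h with ⟨h1, h2⟩ | ⟨h1, h2⟩
      · exact Prod.ext h1 h2
      · exfalso
        have := (hSmem _ g1.1).2.1
        rw [h1] at this
        exact this g2.2.1
    have himg : Z.image (fun z : V n × V n => (Sum.inr s(z.1, z.2) : Ix n)) ⊆ E := by
      intro e he
      rw [Finset.mem_image] at he
      obtain ⟨z, hz, rfl⟩ := he
      have g := hbd z hz
      rw [hE]
      exact ⟨z.1, z.2, (hSmem _ g.1).1, ((hCmem _).1 g.2.1).1, g.2.2, rfl⟩
    have hz : ∀ z ∈ Z, μ.real (EC C) * μ.real {ω | (H ω (S : Set (V n))).Reachable 0 z.1} ≤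
        μ.real ((Piv (arm n k) (Sum.inr s(z.1, z.2)) ∩ {ω | ω (Sum.inr s(z.1, z.2)) = false}) ∩
          EC C) := by
      intro z hz
      obtain ⟨g1, g2, g3⟩ := hbd z hz
      have hSB : (S : Set (V n)) ⊆ R := fun x hx => (hSmem x hx).1
      have mr : MeasurableSet {ω : Cfg n | (H ω (S : Set (V n))).Reachable 0 z.1} := by
        refine mdep _ (dep_mono (dep_reach _ _ _) ?_)
        rintro c ⟨x, y, hx, hy, hxy, rfl⟩
        exact ⟨x, y, hSB hx, hSB hy, hxy, rfl⟩
      have hind : μ (EC C ∩ {ω | (H ω (S : Set (V n))).Reachable 0 z.1}) =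
          μ (EC C) * μ {ω | (H ω (S : Set (V n))).Reachable 0 z.1} := by
        refine hI _ r _ _ _ _ (dep_clu R (Bd n k) (C : Set (V n))) (dep_reach _ _ _) ?_ (mEC C) mr
        rw [Set.disjoint_left]
        rintro e ⟨x, y, hx, hy, hxC, hxy, rfl⟩ ⟨x', y', hx', hy', hxy', h⟩
        simp only [Sum.inr.injEq] at h
        rw [Sym2.eq_iff] at h
        rcases h with ⟨h1, h2⟩ | ⟨h1, h2⟩
        · rw [h1] at hxC; exact (hSmem _ hx').2.1 hxC
        · rw [h1] at hxC; exact (hSmem _ hy').2.1 hxC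
      have hindr : μ.real (EC C) * μ.real {ω | (H ω (S : Set (V n))).Reachable 0 z.1} =
          μ.real (EC C ∩ {ω | (H ω (S : Set (V n))).Reachable 0 z.1}) := by
        unfold Measure.real
        rw [hind, ENNReal.toReal_mul]
      rw [hindr]
      refine measureReal_mono ?_ (measure_ne_top _ _)
      rintro ω ⟨hω, hr⟩
      have hcl : clu ω R (Bd n k) = (C : Set (V n)) := hω
      have hyC : z.2 ∈ clu ω R (Bd n k) := by rw [hcl]; exact g2
      have hxC : z.1 ∉ clu ω R (Bd n k) := by rw [hcl]; exact (hSmem _ g1).2.1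
      have g4 : z.2 ∈ R := ((hCmem _).1 g2).1
      have hclosed : ω (Sum.inr s(z.1, z.2)) = false := by
        by_contra hne
        rw [Bool.not_eq_false] at hne
        apply hxC
        obtain ⟨b, hb, hrb⟩ := hyC
        refine ⟨b, hb, hrb.trans (SimpleGraph.Adj.reachable ?_)⟩
        exact SimpleGraph.Adj.symm ⟨hSB g1, g4, g3, hne⟩
      refine ⟨⟨⟨?_, ?_⟩, hclosed⟩, hω⟩
      · rw [harm]
        obtain ⟨b, hb, hrb⟩ := hyC
        have hle := H_le (R := R) (upd_true_le (Sum.inr s(z.1, z.2)) ω)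
        have hle2 := H_mono (ω := ω) hSB
        refine ⟨b, hb, (hrb.mono hle).trans (SimpleGraph.Reachable.trans ?_
          ((hr.mono hle2).mono hle).symm)⟩
        refine SimpleGraph.Adj.reachable (SimpleGraph.Adj.symm ⟨hSB g1, g4, g3, upd_self _ _ _⟩)
      · rw [upd_of hclosed, harm, hcl]
        exact hC2
    have hphiS := hphi S C h0S (fun y hy => ⟨(hSmem y hy).1, (hSmem y hy).2.2⟩) hCmem
    have hsum1 : 1 ≤ ∑ z ∈ Z, μ.real {ω | (H ω (S : Set (V n))).Reachable 0 z.1} := by
      rw [hZ]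
      exact hphiS
    calc μ.real (EC C) ≤ μ.real (EC C) *
          ∑ z ∈ Z, μ.real {ω | (H ω (S : Set (V n))).Reachable 0 z.1} := by
          have : 0 ≤ μ.real (EC C) := measureReal_nonneg
          nlinarith
      _ = ∑ z ∈ Z, μ.real (EC C) * μ.real {ω | (H ω (S : Set (V n))).Reachable 0 z.1} := by
          rw [Finset.mul_sum]
      _ ≤ ∑ z ∈ Z, μ.real ((Piv (arm n k) (Sum.inr s(z.1, z.2)) ∩
          {ω | ω (Sum.inr s(z.1, z.2)) = false}) ∩ EC C) := Finset.sum_le_sum hz
      _ = ∑ e ∈ Z.image (fun z : V n × V n => (Sum.inr s(z.1, z.2) : Ix n)),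
          μ.real ((Piv (arm n k) e ∩ {ω | ω e = false}) ∩ EC C) := by
          rw [Finset.sum_image hinj]
      _ ≤ ∑ e ∈ E, μ.real ((Piv (arm n k) e ∩ {ω | ω e = false}) ∩ EC C) :=
          Finset.sum_le_sum_of_subset_of_nonneg himg fun _ _ _ => measureReal_nonneg
  rw [hone]
  calc ∑ C ∈ Cs, μ.real (EC C) ≤ ∑ C ∈ Cs, ∑ e ∈ E, μ.real ((Piv (arm n k) e ∩
      {ω | ω e = false}) ∩ EC C) := Finset.sum_le_sum hC
    _ = ∑ e ∈ E, ∑ C ∈ Cs, μ.real ((Piv (arm n k) e ∩ {ω | ω e = false}) ∩ EC C) :=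
        Finset.sum_comm
    _ ≤ ∑ e ∈ E, μ.real (Piv (arm n k) e ∩ {ω | ω e = false}) := by
        refine Finset.sum_le_sum fun e he => ?_
        have hmeas : MeasurableSet (Piv (arm n k) e ∩ {ω | ω e = false}) :=
          (mdep _ (dep_Piv (arm_dep k) e)).inter (meas_coord e false)
        rw [← measureReal_biUnion_finset]
        · refine measureReal_mono ?_ (measure_ne_top _ _)
          refine Set.iUnion₂_subset fun C _ => inter_subset_left
        · intro C _ C' _ hne
          exact Set.disjoint_of_subset inter_subset_right inter_subset_right (hdisj C C' hne)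
        · intro C _; exact hmeas.inter (mEC C)

/-- The functional in terms of boundary pairs. -/
lemma phi_le_pairs (p : unitInterval) (s : ℝ) (m k : ℕ) (S C : Finset (V n))
    (hS : ∀ y ∈ S, y ∈ (CB k k : Set (V n)) ∧ y ∉ Bd n k)
    (hC : ∀ v, v ∈ C ↔ v ∈ (CB k k : Set (V n)) ∧ v ∉ S) :
    open scoped Classical in
    phi p 0 s m S 0 ≤ ∑ z ∈ (S ×ˢ C).filter (fun z => NN z.1 z.2),
        (pm (prob (n := n) 1 p 0 s m)).real {ω | (H ω (S : Set (V n))).Reachable 0 z.1} := by
  classical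
  unfold phi
  rw [Finset.sum_filter, Finset.sum_product]
  refine Finset.sum_le_sum fun y hy => ?_
  have hcongr : (pm (prob (n := n) 1 p 0 s m)).real
      {ω | (G (EdI m) ω (S : Set (V n))).Reachable 0 y} =
      (pm (prob (n := n) 1 p 0 s m)).real {ω | (H ω (S : Set (V n))).Reachable 0 y} := by
    refine measureReal_congr ?_
    filter_upwards [ae_Om (n := n) p s m] with ω hω
    apply propext
    show (G (EdI m) ω (S : Set (V n))).Reachable 0 y ↔ (H ω (S : Set (V n))).Reachable 0 y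
    rw [G_eq_H hω]
  rw [hcongr]
  set a := (pm (prob (n := n) 1 p 0 s m)).real {ω | (H ω (S : Set (V n))).Reachable 0 y}
  have ha : 0 ≤ a := measureReal_nonneg
  have htsum : (∑' z : V n, if z ∈ S then (0 : ℝ) else
      (prob (n := n) 1 p 0 s m (Sum.inr s(y, z)) : ℝ)) =
      ∑ z ∈ C, if NN y z then (p : ℝ) else 0 := by
    rw [tsum_eq_sum (s := C)]
    · refine Finset.sum_congr rfl fun z hz => ?_
      rw [if_neg ((hC z).1 hz).2, prob_eq]
      unfold rp
      simp only [isNN_iff]
    · intro z hz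
      by_cases hzS : z ∈ S
      · rw [if_pos hzS]
      · rw [if_neg hzS, prob_eq]
        unfold rp
        simp only [isNN_iff]
        rw [if_neg]
        intro hNN
        exact hz ((hC z).2 ⟨NN_CB hNN (hS y hy).1 (hS y hy).2, hzS⟩)
  rw [htsum, Finset.mul_sum]
  refine Finset.sum_le_sum fun z hz => ?_
  by_cases h : NN y z
  · rw [if_pos h, if_pos h]
    have := p.2.2
    nlinarith
  · rw [if_neg h, if_neg h, mul_zero]

/-- the arm probabilities are bounded from below -/
lemma arm_lower (hI : S_indep) (hD : S_depmeas) (hM : S_mono) (m : ℕ) (s : ℝ)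
    (p p' : unitInterval) (hpp : p < p')
    (hcon : ∀ S : Finset (V n), 0 ∈ S → 1 ≤ phi p 0 s m S 0) (k : ℕ) :
    1 - Real.exp (-((p' : ℝ) - p)) ≤ (pm (prob (n := n) 1 p' 0 s m)).real (arm n k) := by
  classical
  have hfin : (nnI (CB k k : Set (V n))).Finite := nnI_finite (CB_finite k k)
  set E := hfin.toFinset with hEdef
  have hE : ∀ e, e ∈ E ↔ e ∈ nnI (CB k k : Set (V n)) := fun e => by
    rw [hEdef, Set.Finite.mem_toFinset]
  have hdep : DepOn (arm n k) (E : Set (Ix n)) := by
    rw [hEdef, Set.Finite.coe_toFinset]; exact arm_dep k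
  set F : ℝ → ℝ := fun t => EE E (rp n t) (I1 (arm n k)) with hF
  have hFq : ∀ q : unitInterval, F q = (pm (prob (n := n) 1 q 0 s m)).real (arm n k) := by
    intro q
    rw [pm_eq_EE hI hD _ hdep]
    have : rp n (q : ℝ) = fun c => (prob (n := n) 1 q 0 s m c : ℝ) := by
      funext c; exact (prob_eq q s m c).symm
    rw [hF]
    simp only [this]
  have hmono : ∀ q : unitInterval, p ≤ q → ∀ c, prob (n := n) 1 p 0 s m c ≤
      prob (n := n) 1 q 0 s m c := by
    intro q hq c
    rw [← Subtype.coe_le_coe, prob_eq, prob_eq]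
    cases c with
    | inl x => exact le_refl _
    | inr e =>
      simp only [rp]
      split_ifs
      · exact hq
      · exact le_refl _
  have hder : ∀ t : ℝ, (p : ℝ) ≤ t → t ≤ p' → ∃ D, HasDerivAt F D t ∧ 1 - F t ≤ D := by
    intro t h1 h2
    have ht0 : 0 ≤ t := le_trans p.2.1 h1
    have ht1 : t ≤ 1 := le_trans h2 p'.2.2
    set q : unitInterval := ⟨t, ht0, ht1⟩ with hq
    have hpq : p ≤ q := h1
    set r := prob (n := n) 1 q 0 s m with hr
    set ρ' : Ix n → ℝ := fun c => match c with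
      | Sum.inl _ => 0
      | Sum.inr e => if isNN e then 1 else 0 with hρ'
    have hd := russo_pm hI hD r hdep (arm_inc k) (fun t => rp n t) ρ' t (by
      intro c
      cases c with
      | inl x => simpa [rp, hρ'] using hasDerivAt_const t (1 : ℝ)
      | inr e =>
        by_cases he : isNN e
        · simpa [rp, hρ', he] using hasDerivAt_id' t
        · simpa [rp, hρ', he] using hasDerivAt_const t (0 : ℝ)) (by
      intro c
      rw [hr, prob_eq])
    refine ⟨_, hd, ?_⟩
    have h3 := piv_lower hI hD r k (CB_finite k k).toFinset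
      (fun v => Set.Finite.mem_toFinset _) E hE (by
        intro S C h0 hS hC
        refine (hcon S h0).trans ((phi_le_pairs p s m k S C hS hC).trans ?_)
        refine Finset.sum_le_sum fun z hz => ?_
        have hSfin : (nnI (S : Set (V n))).Finite := nnI_finite S.finite_toSet
        have hmeas : MeasurableSet {ω : Cfg n | (H ω (S : Set (V n))).Reachable 0 z.1} := by
          refine hD _ hSfin.toFinset _ ?_
          rw [Set.Finite.coe_toFinset]; exact dep_reach _ _ _
        have hinc : Inc {ω : Cfg n | (H ω (S : Set (V n))).Reachable 0 z.1} := by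
          intro ω ω' h hω
          exact SimpleGraph.Reachable.mono (H_le h) hω
        exact ENNReal.toReal_mono (measure_ne_top _ _)
          (hM _ _ _ _ (hmono q hpq) hinc hmeas))
    have h4 : F t = (pm r).real (arm n k) := hFq q
    rw [h4]
    refine h3.trans ?_
    refine Finset.sum_le_sum fun e he => ?_
    obtain ⟨x, y, hx, hy, hxy, rfl⟩ := (hE e).1 he
    rw [piv_closed hI hD r hdep he]
    have h5 : (r (Sum.inr s(x, y)) : ℝ) = t := by
      rw [hr, prob_eq]; simp [rp, isNN_iff, hxy, hq]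
    have h6 : ρ' (Sum.inr s(x, y)) = 1 := by simp [hρ', isNN_iff, hxy]
    rw [h5, h6, one_mul]
    have h7 : 0 ≤ (pm r).real (Piv (arm n k) (Sum.inr s(x, y))) := measureReal_nonneg
    nlinarith
  set g : ℝ → ℝ := fun t => (1 - F t) * Real.exp t with hg
  have hgder : ∀ t : ℝ, (p : ℝ) ≤ t → t ≤ p' → ∃ D, HasDerivAt g D t ∧ D ≤ 0 := by
    intro t h1 h2
    obtain ⟨D, hD, hD2⟩ := hder t h1 h2
    have h3 := ((hasDerivAt_const t (1 : ℝ)).sub hD).mul (Real.hasDerivAt_exp t)
    refine ⟨_, h3, ?_⟩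
    simp only [Pi.sub_apply]
    have := Real.exp_pos t
    nlinarith
  have hpp' : (p : ℝ) < p' := hpp
  have hanti : AntitoneOn g (Set.Icc (p : ℝ) p') := by
    refine antitoneOn_of_deriv_nonpos (convex_Icc _ _) ?_ ?_ ?_
    · intro t ht
      obtain ⟨D, hD, _⟩ := hgder t ht.1 ht.2
      exact hD.continuousAt.continuousWithinAt
    · intro t ht
      rw [interior_Icc] at ht
      obtain ⟨D, hD, _⟩ := hgder t ht.1.le ht.2.le
      exact hD.differentiableAt.differentiableWithinAt
    · intro t ht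
      rw [interior_Icc] at ht
      obtain ⟨D, hD, hD2⟩ := hgder t ht.1.le ht.2.le
      rw [hD.deriv]; exact hD2
  have h1 := hanti (Set.left_mem_Icc.2 hpp'.le) (Set.right_mem_Icc.2 hpp'.le) hpp'.le
  have h3 : 0 ≤ F p := by rw [hFq p]; exact measureReal_nonneg
  rw [← hFq p']
  simp only [hg] at h1
  have h4 : (1 - F p) * Real.exp p ≤ Real.exp p := by
    have := Real.exp_pos (p : ℝ)
    nlinarith
  have h5 : (1 - F p') ≤ Real.exp (-((p' : ℝ) - p)) := by
    have h6 : Real.exp (-((p' : ℝ) - p)) * Real.exp p' = Real.exp p := by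
      rw [← Real.exp_add]; congr 1; ring
    have h7 := Real.exp_pos (p' : ℝ)
    have h8 : (1 - F p') * Real.exp p' ≤
        Real.exp (-((p' : ℝ) - p)) * Real.exp p' := by rw [h6]; linarith
    exact le_of_mul_le_mul_right h8 h7
  linarith

/-- Duminil-Copin and Tassion -/
theorem s_dct (hI : S_indep) (hD : S_depmeas) (hM : S_mono) (hR : S_reach_meas) : S_dct := by
  classical
  intro n m s p p' hn hpp h0
  by_contra hcon
  push Not at hcon
  set μ := pm (prob (n := n) 1 p' 0 s m) with hμ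
  set B : ℕ → Set (Cfg n) := fun k =>
    {ω | ∃ y : V n, y ∉ (CB k k : Set (V n)) ∧ (G (EdI m) ω univ).Reachable 0 y} with hB
  have hBm : ∀ k, MeasurableSet (B k) := by
    intro k
    have : B k = ⋃ y : V n, ⋃ (_ : y ∉ (CB k k : Set (V n))),
        {ω | (G (EdI m) ω univ).Reachable 0 y} := by
      ext ω; simp [hB]
    rw [this]
    exact MeasurableSet.iUnion fun y => MeasurableSet.iUnion fun _ => hR n _ _ _ _
  have hBanti : Antitone B := by
    intro k l hkl ω hω
    obtain ⟨y, hy, hr⟩ := hω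
    refine ⟨y, fun h => hy ?_, hr⟩
    have hkl' : (k : ℤ) ≤ l := by exact_mod_cast hkl
    exact ⟨h.1.trans hkl', fun i => (h.2 i).trans hkl'⟩
  have hsubP : (⋂ k, B k) ⊆ Perc (EdI m) (0 : V n) := by
    intro ω hω
    rw [mem_iInter] at hω
    show (cl (EdI m) ω univ 0).Infinite
    intro hfin
    obtain ⟨M, hM⟩ : ∃ M : ℕ, ∀ v ∈ hfin.toFinset, v ∈ (CB M M : Set (V n)) := by
      refine ⟨∑ v ∈ hfin.toFinset, (v.1.natAbs + ∑ i, (v.2 i).natAbs), fun v hv => ?_⟩
      have h1 := Finset.single_le_sum (f := fun v : V n => (v.1.natAbs + ∑ i, (v.2 i).natAbs))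
          (fun _ _ => Nat.zero_le _) hv
      constructor
      · have h2 : v.1.natAbs ≤ ∑ v ∈ hfin.toFinset, (v.1.natAbs + ∑ i, (v.2 i).natAbs) :=
          (Nat.le_add_right _ _).trans h1
        rw [Int.abs_eq_natAbs]
        exact_mod_cast h2
      · intro i
        have h3 : (v.2 i).natAbs ≤ ∑ i, (v.2 i).natAbs :=
          Finset.single_le_sum (f := fun i => (v.2 i).natAbs) (fun _ _ => Nat.zero_le _)
            (Finset.mem_univ i)
        have h2 : (v.2 i).natAbs ≤ ∑ v ∈ hfin.toFinset, (v.1.natAbs + ∑ i, (v.2 i).natAbs) :=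
          (h3.trans (Nat.le_add_left _ _)).trans h1
        rw [Int.abs_eq_natAbs]
        exact_mod_cast h2
    obtain ⟨y, hy, hr⟩ := hω M
    exact hy (hM y (by rw [Set.Finite.mem_toFinset]; exact hr))
  have hlow : ∀ k, 1 - Real.exp (-((p' : ℝ) - p)) ≤ μ.real (B k) := by
    intro k
    have h1 := arm_lower hI hD hM m s p p' hpp hcon (k + 1)
    refine h1.trans ?_
    have h2 : μ (arm n (k + 1)) ≤ μ (B k) := by
      refine measure_mono_ae ?_
      filter_upwards [ae_Om (n := n) p' s m] with ω hω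
      rintro ⟨b, hb, hr⟩
      refine ⟨b, ?_, ?_⟩
      · intro hb2
        obtain ⟨_, hb1⟩ := hb
        obtain ⟨hc1, hc2⟩ := hb2
        push_cast at hb1
        rcases hb1 with h | ⟨i, h⟩
        · omega
        · have := hc2 i; omega
      · rw [G_eq_H hω]
        exact (hr.mono (H_mono (subset_univ _))).symm
    exact ENNReal.toReal_mono (measure_ne_top _ _) h2
  have hlim := tendsto_measure_iInter_atTop (μ := μ) (s := B)
    (fun k => (hBm k).nullMeasurableSet) hBanti ⟨0, measure_ne_top _ _⟩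
  have hP : 1 - Real.exp (-((p' : ℝ) - p)) ≤ μ.real (⋂ k, B k) := by
    have h1 : Filter.Tendsto (fun k => μ.real (B k)) Filter.atTop
        (nhds (μ.real (⋂ k, B k))) := by
      unfold Measure.real
      exact (ENNReal.tendsto_toReal (measure_ne_top _ _)).comp hlim
    exact ge_of_tendsto' h1 hlow
  have hP2 : μ.real (⋂ k, B k) ≤ μ.real (Perc (EdI m) (0 : V n)) :=
    measureReal_mono hsubP (measure_ne_top _ _)
  have hexp : Real.exp (-((p' : ℝ) - p)) < 1 := by
    rw [Real.exp_lt_one_iff]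
    have : (p : ℝ) < p' := hpp
    linarith
  rw [h0] at hP2
  linarith

end Pool.Agent.W424.PC
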