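import Pool.Agent.W424.PC.Russo

/-!
# The nearest-neighbour graph
-/

set_option autoImplicit false
set_option linter.all false
set_option linter.deprecated false

open MeasureTheory Set

namespace Pool.Agent.W424.PC

open Pool.Agent.W783.PC

variable {n : ℕ}

/-- open nearest-neighbour bonds inside `R` -/
def H (ω : Cfg n) (R : Set (V n)) : SimpleGraph (V n) where
  Adj x y := x ∈ R ∧ y ∈ R ∧ NN x y ∧ ω (Sum.inr s(x, y)) = true
  symm := ⟨fun x y ⟨h1, h2, h3, h4⟩ => ⟨h2, h1, by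
    unfold NN at h3 ⊢
    rw [abs_sub_comm]
    simp only [abs_sub_comm (y.2 _) (x.2 _)]
    exact h3, by rwa [Sym2.eq_swap]⟩⟩
  loopless := ⟨fun x h => by
    have h3 := h.2.2.1
    unfold NN at h3
    simp at h3⟩

lemma NN_symm {x y : V n} (h : NN x y) : NN y x := by
  unfold NN at h ⊢
  rw [abs_sub_comm]
  simp only [abs_sub_comm (y.2 _) (x.2 _)]
  exact h

lemma isNN_iff {x y : V n} : isNN s(x, y) ↔ NN x y := by
  constructor
  · rintro ⟨a, b, h, hab⟩
    rw [Sym2.eq_iff] at h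
    rcases h with ⟨rfl, rfl⟩ | ⟨rfl, rfl⟩
    · exact hab
    · exact NN_symm hab
  · intro h
    exact ⟨x, y, rfl, h⟩

lemma not_NN_self (x : V n) : ¬ NN x x := by
  intro h
  unfold NN at h
  simp at h

/-- sites open, other bonds closed -/
def Om (n : ℕ) : Set (Cfg n) :=
  {ω | (∀ x, ω (Sum.inl x) = true) ∧ ∀ e, ¬ isNN e → ω (Sum.inr e) = false}

lemma G_eq_H {ω : Cfg n} (hω : ω ∈ Om n) (m : ℕ) (R : Set (V n)) : G (EdI m) ω R = H ω R := by
  ext x y
  constructor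
  · rintro ⟨h1, h2, h3, h4, h5, h6, h7⟩
    refine ⟨h2, h3, ?_, h7⟩
    by_contra h8
    have := hω.2 s(x, y) (fun h => h8 (isNN_iff.1 h))
    rw [this] at h7
    simp at h7
  · rintro ⟨h1, h2, h3, h4⟩
    refine ⟨?_, h1, h2, Or.inl (isNN_iff.2 h3), hω.1 x, hω.1 y, h4⟩
    rintro rfl
    exact not_NN_self _ h3

instance : Countable (Sym2 (V n)) := inferInstanceAs (Countable (Quot _))

/-- the real parameters -/
noncomputable def rp (n : ℕ) (t : ℝ) (c : Ix n) : ℝ :=
  open scoped Classical in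
  match c with
  | Sum.inl _ => 1
  | Sum.inr e => if isNN e then t else 0

lemma prob_eq (q : unitInterval) (s : ℝ) (m : ℕ) (c : Ix n) :
    (prob (n := n) 1 q 0 s m c : ℝ) = rp n q c := by
  classical
  cases c with
  | inl x => simp [prob, rp]
  | inr e =>
    simp only [prob, rp]
    by_cases h : isNN e
    · simp [h]
    · by_cases h2 : isLg m e
      · simp [h, h2, lrp]
      · simp [h, h2]

lemma ae_Om (q : unitInterval) (s : ℝ) (m : ℕ) : ∀ᵐ ω ∂(pm (prob (n := n) 1 q 0 s m)), ω ∈ Om n := by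
  classical
  set r := prob (n := n) 1 q 0 s m with hr
  have h1 : ∀ᵐ ω ∂(pm r), ∀ x, ω (Sum.inl x) = true := by
    rw [ae_all_iff]
    intro x
    rw [ae_iff]
    have h := (pm_coord r (Sum.inl x)).2
    have h2 : (r (Sum.inl x) : ℝ) = 1 := by rw [hr, prob_eq]; rfl
    rw [h2, sub_self, measureReal_def, ENNReal.toReal_eq_zero_iff] at h
    rcases h with h | h
    · rw [← h]; congr 1; ext ω; simp
    · exact absurd h (measure_ne_top _ _)
  have h2 : ∀ᵐ ω ∂(pm r), ∀ e, ¬ isNN e → ω (Sum.inr e) = false := by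
    rw [ae_all_iff]
    intro e
    by_cases he : isNN e
    · exact Filter.Eventually.of_forall fun ω h => absurd he h
    · rw [ae_iff]
      have h := (pm_coord r (Sum.inr e)).1
      have h2 : (r (Sum.inr e) : ℝ) = 0 := by rw [hr, prob_eq]; simp [rp, he]
      rw [h2, measureReal_def, ENNReal.toReal_eq_zero_iff] at h
      rcases h with h | h
      · rw [← h]; congr 1; ext ω; simp [he]
      · exact absurd h (measure_ne_top _ _)
  filter_upwards [h1, h2] with ω a b using ⟨a, b⟩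

/-- nearest-neighbour bonds inside `R` -/
def nnI (R : Set (V n)) : Set (Ix n) := {c | ∃ x y, x ∈ R ∧ y ∈ R ∧ NN x y ∧ c = Sum.inr s(x, y)}

lemma H_congr {ω ω' : Cfg n} {R : Set (V n)} (h : ∀ c ∈ nnI R, ω c = ω' c) : H ω R = H ω' R := by
  ext x y
  constructor
  · rintro ⟨h1, h2, h3, h4⟩
    exact ⟨h1, h2, h3, by rw [← h _ ⟨x, y, h1, h2, h3, rfl⟩]; exact h4⟩
  · rintro ⟨h1, h2, h3, h4⟩
    exact ⟨h1, h2, h3, by rw [h _ ⟨x, y, h1, h2, h3, rfl⟩]; exact h4⟩

lemma H_mono {ω : Cfg n} {R R' : Set (V n)} (h : R ⊆ R') : H ω R ≤ H ω R' := by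
  intro x y hxy
  exact ⟨h hxy.1, h hxy.2.1, hxy.2.2⟩

lemma H_le {ω ω' : Cfg n} {R : Set (V n)} (h : ∀ c, ω c = true → ω' c = true) :
    H ω R ≤ H ω' R := by
  intro x y hxy
  exact ⟨hxy.1, hxy.2.1, hxy.2.2.1, h _ hxy.2.2.2⟩

lemma upd_true_le (e : Ix n) (ω : Cfg n) : ∀ c, ω c = true → upd e true ω c = true := by
  intro c hc
  by_cases h : c = e
  · subst h; exact upd_self _ _ _
  · rw [upd_ne h]; exact hc

/-- the cluster of a set -/
def clu (ω : Cfg n) (R A : Set (V n)) : Set (V n) := {v | ∃ a ∈ A, (H ω R).Reachable a v}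

lemma reach_mem {ω : Cfg n} {R : Set (V n)} {x y : V n} (h : (H ω R).Reachable x y)
    (hx : x ∈ R) : y ∈ R := by
  rw [SimpleGraph.reachable_iff_reflTransGen] at h
  induction h with
  | refl => exact hx
  | tail _ h _ => exact h.2.1

/-- bonds inside `R` touching `C` -/
def tch (R C : Set (V n)) : Set (Ix n) :=
  {c | ∃ x y, x ∈ R ∧ y ∈ R ∧ x ∈ C ∧ NN x y ∧ c = Sum.inr s(x, y)}

lemma dep_clu (R A C : Set (V n)) : DepOn {ω : Cfg n | clu ω R A = C} (tch R C) := by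
  have key : ∀ ω ω' : Cfg n, (∀ i ∈ tch R C, ω i = ω' i) → clu ω R A = C → clu ω' R A = C := by
    intro ω ω' h hC
    ext v
    constructor
    · rintro ⟨a, ha, hr⟩
      rw [SimpleGraph.reachable_iff_reflTransGen] at hr
      induction hr with
      | refl => rw [← hC]; exact ⟨a, ha, SimpleGraph.Reachable.refl _⟩
      | @tail c d _ hcd ih =>
        have h1 : ω (Sum.inr s(c, d)) = true := by
          rw [h _ ⟨c, d, hcd.1, hcd.2.1, ih, hcd.2.2.1, rfl⟩]; exact hcd.2.2.2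
        rw [← hC] at ih ⊢
        obtain ⟨a', ha', hr'⟩ := ih
        exact ⟨a', ha', hr'.trans (SimpleGraph.Adj.reachable ⟨hcd.1, hcd.2.1, hcd.2.2.1, h1⟩)⟩
    · intro hv
      rw [← hC] at hv
      obtain ⟨a, ha, hr⟩ := hv
      refine ⟨a, ha, ?_⟩
      rw [SimpleGraph.reachable_iff_reflTransGen] at hr
      induction hr with
      | refl => exact SimpleGraph.Reachable.refl _
      | @tail c d hac hcd ih =>
        refine ih.trans (SimpleGraph.Adj.reachable ⟨hcd.1, hcd.2.1, hcd.2.2.1, ?_⟩)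
        have hcC : c ∈ C := by
          rw [← hC]
          exact ⟨a, ha, (SimpleGraph.reachable_iff_reflTransGen a c).2 hac⟩
        rw [← h _ ⟨c, d, hcd.1, hcd.2.1, hcC, hcd.2.2.1, rfl⟩]
        exact hcd.2.2.2
  intro ω ω' h
  exact ⟨key ω ω' h, key ω' ω fun i hi => (h i hi).symm⟩

lemma dep_reach (R : Set (V n)) (x y : V n) :
    DepOn {ω : Cfg n | (H ω R).Reachable x y} (nnI R) := by
  intro ω ω' h
  simp only [mem_setOf_eq]
  rw [H_congr h]

lemma CB_finite (N M : ℕ) : (CB N M : Set (V n)).Finite := by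
  have h : (CB N M : Set (V n)) ⊆
      (Set.Icc (-(N : ℤ)) N) ×ˢ (Set.Icc (fun _ => -(M : ℤ)) (fun _ => (M : ℤ))) := by
    intro x hx
    obtain ⟨h1, h2⟩ := hx
    rw [abs_le] at h1
    refine ⟨h1, ?_⟩
    constructor
    · intro i
      have := h2 i
      rw [abs_le] at this
      exact this.1
    · intro i
      have := h2 i
      rw [abs_le] at this
      exact this.2
  exact ((Set.finite_Icc _ _).prod (Set.finite_Icc _ _)).subset h

lemma nnI_finite {R : Set (V n)} (h : R.Finite) : (nnI R).Finite := by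
  have : nnI R ⊆ (fun z : V n × V n => (Sum.inr s(z.1, z.2) : Ix n)) '' (R ×ˢ R) := by
    rintro c ⟨x, y, hx, hy, _, rfl⟩
    exact ⟨(x, y), ⟨hx, hy⟩, rfl⟩
  exact ((h.prod h).image _).subset this

/-- the boundary of the box -/
def Bd (n k : ℕ) : Set (V n) := {x | x ∈ CB k k ∧ (|x.1| = k ∨ ∃ i, |x.2 i| = k)}

lemma NN_le {x y : V n} (h : NN x y) : |x.1 - y.1| ≤ 1 ∧ ∀ i, |x.2 i - y.2 i| ≤ 1 := by
  unfold NN at h
  have h0 : 0 ≤ ∑ i, |x.2 i - y.2 i| := Finset.sum_nonneg fun i _ => abs_nonneg _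
  have h1 : 0 ≤ |x.1 - y.1| := abs_nonneg _
  refine ⟨by omega, fun i => ?_⟩
  have h2 : |x.2 i - y.2 i| ≤ ∑ i, |x.2 i - y.2 i| :=
    Finset.single_le_sum (f := fun i => |x.2 i - y.2 i|) (fun i _ => abs_nonneg _)
      (Finset.mem_univ i)
  omega

lemma NN_CB {x y : V n} {k : ℕ} (h : NN x y) (hx : x ∈ (CB k k : Set (V n)))
    (hb : x ∉ Bd n k) : y ∈ (CB k k : Set (V n)) := by
  obtain ⟨h1, h2⟩ := NN_le h
  have hb' : ¬ (|x.1| = k ∨ ∃ i, |x.2 i| = k) := fun h' => hb ⟨hx, h'⟩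
  push Not at hb'
  obtain ⟨b1, b2⟩ := hb'
  obtain ⟨c1, c2⟩ := hx
  constructor
  · rw [abs_le] at h1 c1 ⊢
    have : ¬ (x.1 = k ∨ x.1 = -k) := by
      rintro (h | h)
      · apply b1; rw [h]; simp
      · apply b1; rw [h]; simp
    omega
  · intro i
    have h2 := h2 i
    have c2 := c2 i
    have b2 := b2 i
    rw [abs_le] at h2 c2 ⊢
    have : ¬ (x.2 i = k ∨ x.2 i = -k) := by
      rintro (h | h)
      · apply b2; rw [h]; simp
      · apply b2; rw [h]; simp
    omega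

lemma zero_CB (k : ℕ) : (0 : V n) ∈ (CB k k : Set (V n)) := by
  constructor
  · simp
  · intro i; simp

/-- the arm event -/
def arm (n k : ℕ) : Set (Cfg n) := {ω | (0 : V n) ∈ clu ω (CB k k) (Bd n k)}

lemma arm_inc (k : ℕ) : Inc (arm n k) := by
  rintro ω ω' h ⟨b, hb, hr⟩
  exact ⟨b, hb, hr.mono (H_le h)⟩

lemma arm_dep (k : ℕ) : DepOn (arm n k) (nnI (CB k k)) := by
  intro ω ω' h
  unfold arm clu
  simp only [mem_setOf_eq]
  rw [H_congr h]

end Pool.Agent.W424.PC
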