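import Pool.Agent.W783.Perc.Stmts

/-!
# Finite expectations for product Bernoulli measures and the formula of Russo
-/

set_option autoImplicit false
set_option linter.all false
set_option linter.deprecated false

open MeasureTheory Set

namespace Pool.Agent.W424.PC

open Pool.Agent.W783.PC

variable {ι : Type}

open Classical in
/-- the configuration whose open coordinates are those in `T` -/
noncomputable def cfgOf (T : Finset ι) : ι → Bool := fun i => decide (i ∈ T)

open Classical in
/-- finite expectation -/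
noncomputable def EE (E : Finset ι) (ρ : ι → ℝ) (f : (ι → Bool) → ℝ) : ℝ :=
  ∑ T ∈ E.powerset, (∏ c ∈ T, ρ c) * (∏ c ∈ E \ T, (1 - ρ c)) * f (cfgOf T)

open Classical in
/-- set a coordinate -/
noncomputable def upd (e : ι) (b : Bool) (ω : ι → Bool) : ι → Bool := Function.update ω e b

lemma upd_self (e : ι) (b : Bool) (ω : ι → Bool) : upd e b ω e = b := by simp [upd]
lemma upd_ne {e i : ι} (h : i ≠ e) (b : Bool) (ω : ι → Bool) : upd e b ω i = ω i := by
  simp [upd, h]
lemma upd_of {e : ι} {b : Bool} {ω : ι → Bool} (h : ω e = b) : upd e b ω = ω := by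
  subst h; simp [upd]

lemma EE_insert [inst : DecidableEq ι] {E : Finset ι} {e : ι} (he : e ∉ E) (ρ : ι → ℝ)
    (f : (ι → Bool) → ℝ) :
    EE (insert e E) ρ f = ρ e * EE E ρ (fun ω => f (upd e true ω)) +
      (1 - ρ e) * EE E ρ (fun ω => f (upd e false ω)) := by
  obtain rfl : inst = fun a b => Classical.propDecidable (a = b) := Subsingleton.elim _ _
  classical
  unfold EE
  rw [Finset.sum_powerset_insert he, add_comm, Finset.mul_sum, Finset.mul_sum]
  congr 1
  · refine Finset.sum_congr rfl fun T hT => ?_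
    have hT' := Finset.mem_powerset.1 hT
    have heT : e ∉ T := fun h => he (hT' h)
    have h2 : (insert e E \ insert e T) = E \ T := by
      ext x
      simp only [Finset.mem_sdiff, Finset.mem_insert]
      constructor
      · rintro ⟨h | h, h'⟩
        · exact absurd (Or.inl h) h'
        · exact ⟨h, fun h'' => h' (Or.inr h'')⟩
      · rintro ⟨h, h'⟩
        exact ⟨Or.inr h, fun h'' => h''.elim (fun h3 => he (h3 ▸ h)) h'⟩
    have h3 : cfgOf (insert e T) = upd e true (cfgOf T) := by
      funext i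
      by_cases hi : i = e
      · subst hi; simp [cfgOf, upd_self]
      · rw [upd_ne hi]; simp [cfgOf, hi]
    rw [h3, h2, Finset.prod_insert heT]
    ring
  · refine Finset.sum_congr rfl fun T hT => ?_
    have hT' := Finset.mem_powerset.1 hT
    have heT : e ∉ T := fun h => he (hT' h)
    have h3 : upd e false (cfgOf T) = cfgOf T := upd_of (by simp [cfgOf, heT])
    simp only [h3]
    rw [Finset.insert_sdiff_of_notMem _ heT, Finset.prod_insert (by simp [he])]
    ring

lemma EE_empty (ρ : ι → ℝ) (f : (ι → Bool) → ℝ) : EE ∅ ρ f = f (cfgOf ∅) := by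
  classical
  unfold EE
  simp

lemma EE_split [DecidableEq ι] {E : Finset ι} {e : ι} (he : e ∈ E) (ρ : ι → ℝ)
    (f : (ι → Bool) → ℝ) :
    EE E ρ f = ρ e * EE (E.erase e) ρ (fun ω => f (upd e true ω)) +
      (1 - ρ e) * EE (E.erase e) ρ (fun ω => f (upd e false ω)) := by
  have h := EE_insert (E := E.erase e) (e := e) (by simp) ρ f
  rwa [Finset.insert_erase he] at h

lemma EE_congr {E : Finset ι} {ρ : ι → ℝ} {f g : (ι → Bool) → ℝ} (h : ∀ ω, f ω = g ω) :
    EE E ρ f = EE E ρ g := by
  have : f = g := funext h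
  rw [this]

lemma EE_sub {E : Finset ι} {ρ : ι → ℝ} (f g : (ι → Bool) → ℝ) :
    EE E ρ (fun ω => f ω - g ω) = EE E ρ f - EE E ρ g := by
  unfold EE
  rw [← Finset.sum_sub_distrib]
  exact Finset.sum_congr rfl fun T _ => by ring

/-- indicator as a real function -/
noncomputable def I1 (A : Set (ι → Bool)) (ω : ι → Bool) : ℝ := A.indicator (fun _ => (1 : ℝ)) ω

lemma I1_mem {A : Set (ι → Bool)} {ω : ι → Bool} (h : ω ∈ A) : I1 A ω = 1 := by simp [I1, h]
lemma I1_not {A : Set (ι → Bool)} {ω : ι → Bool} (h : ω ∉ A) : I1 A ω = 0 := by simp [I1, h]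

lemma I1_upd (A : Set (ι → Bool)) (e : ι) (b : Bool) (ω : ι → Bool) :
    I1 A (upd e b ω) = I1 {ω | upd e b ω ∈ A} ω := by
  by_cases h : upd e b ω ∈ A
  · rw [I1_mem h, I1_mem (show ω ∈ {ω | upd e b ω ∈ A} from h)]
  · rw [I1_not h, I1_not (show ω ∉ {ω | upd e b ω ∈ A} from h)]

lemma measurable_upd (e : ι) (b : Bool) : Measurable (upd e b : (ι → Bool) → ι → Bool) := by
  rw [measurable_pi_iff]
  intro i
  by_cases h : i = e
  · subst h; simp only [upd_self]; exact measurable_const
  · simp only [upd_ne h]; exact measurable_pi_apply i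

lemma depOn_upd {J : Set ι} {A : Set (ι → Bool)} (h : DepOn A J) (e : ι) (b : Bool) :
    DepOn {ω | upd e b ω ∈ A} (J \ {e}) := by
  intro ω ω' hω
  refine h _ _ fun i hi => ?_
  by_cases hie : i = e
  · subst hie; rw [upd_self, upd_self]
  · rw [upd_ne hie, upd_ne hie]; exact hω i ⟨hi, hie⟩

lemma dep_mono {J J' : Set ι} {A : Set (ι → Bool)} (h : DepOn A J) (hJ : J ⊆ J') :
    DepOn A J' := fun ω ω' hω => h ω ω' fun i hi => hω i (hJ hi)

lemma dep_inter {J : Set ι} {A B : Set (ι → Bool)} (h : DepOn A J) (h' : DepOn B J) :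
    DepOn (A ∩ B) J := fun ω ω' hω => by
  simp only [mem_inter_iff, h ω ω' hω, h' ω ω' hω]

lemma meas_coord (e : ι) (b : Bool) : MeasurableSet {ω : ι → Bool | ω e = b} := by
  have : {ω : ι → Bool | ω e = b} = (fun ω : ι → Bool => ω e) ⁻¹' {b} := rfl
  rw [this]
  exact measurable_pi_apply e (MeasurableSet.singleton b)

lemma pm_coord (r : ι → unitInterval) (e : ι) :
    (pm r).real {ω | ω e = true} = r e ∧ (pm r).real {ω | ω e = false} = 1 - r e := by
  have h0 : (0 : ℝ) ≤ r e := (r e).2.1
  have h1 : (0 : ℝ) ≤ 1 - r e := by linarith [(r e).2.2]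
  have key : ∀ b : Bool, pm r {ω | ω e = b} = bern (r e) {b} := by
    intro b
    have h := Measure.infinitePi_map_eval (fun c : ι => bern (r c)) e
    have h2 : pm r {ω | ω e = b} = (pm r).map (fun x => x e) {b} := by
      rw [Measure.map_apply (measurable_pi_apply e) (MeasurableSet.singleton _)]
      rfl
    rw [h2]
    unfold pm
    rw [h]
  constructor
  · unfold Measure.real
    rw [key true]
    simp [bern, ENNReal.toReal_ofReal h0]
  · unfold Measure.real
    rw [key false]
    simp [bern, ENNReal.toReal_ofReal h1]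

lemma pm_split (hI : S_indep) (r : ι → unitInterval) {A : Set (ι → Bool)} (hA : MeasurableSet A)
    (e : ι) : (pm r).real A = (r e : ℝ) * (pm r).real {ω | upd e true ω ∈ A} +
      (1 - (r e : ℝ)) * (pm r).real {ω | upd e false ω ∈ A} := by
  have hE : A = ({ω | ω e = true} ∩ {ω | upd e true ω ∈ A}) ∪
      ({ω | ω e = false} ∩ {ω | upd e false ω ∈ A}) := by
    ext ω
    simp only [mem_union, mem_inter_iff]
    cases hb : ω e
    · have h1 : upd e false ω = ω := upd_of hb
      simp [hb, h1]
    · have h1 : upd e true ω = ω := upd_of hb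
      simp [hb, h1]
  have m1 : ∀ b, MeasurableSet {ω : ι → Bool | ω e = b} := fun b => meas_coord e b
  have m2 : ∀ b, MeasurableSet {ω : ι → Bool | upd e b ω ∈ A} := fun b => measurable_upd e b hA
  have d1 : ∀ b, DepOn {ω : ι → Bool | ω e = b} {e} := fun b ω ω' h => by
    simp only [mem_setOf_eq, h e rfl]
  have d2 : ∀ b, DepOn {ω : ι → Bool | upd e b ω ∈ A} ({e}ᶜ : Set ι) := fun b ω ω' h => by
    have : upd e b ω = upd e b ω' := by
      funext i
      by_cases hi : i = e
      · subst hi; rw [upd_self, upd_self]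
      · rw [upd_ne hi, upd_ne hi]; exact h i hi
    show upd e b ω ∈ A ↔ upd e b ω' ∈ A
    rw [this]
  have i1 : ∀ b, (pm r).real ({ω | ω e = b} ∩ {ω | upd e b ω ∈ A}) =
      (pm r).real {ω | ω e = b} * (pm r).real {ω | upd e b ω ∈ A} := by
    intro b
    unfold Measure.real
    rw [hI ι r {e} {e}ᶜ _ _ (d1 b) (d2 b) disjoint_compl_right (m1 b) (m2 b), ENNReal.toReal_mul]
  conv_lhs => rw [hE]
  rw [measureReal_union _ ((m1 false).inter (m2 false)), i1, i1, (pm_coord r e).1, (pm_coord r e).2]
  rw [Set.disjoint_left]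
  rintro ω ⟨h, _⟩ ⟨h', _⟩
  simp only [mem_setOf_eq] at h h'
  rw [h] at h'; exact absurd h' (by simp)

lemma pm_eq_EE (hI : S_indep) (hD : S_depmeas) (r : ι → unitInterval) {J : Finset ι}
    {A : Set (ι → Bool)} (h : DepOn A (J : Set ι)) :
    (pm r).real A = EE J (fun c => (r c : ℝ)) (I1 A) := by
  classical
  induction J using Finset.induction_on generalizing A with
  | empty =>
    rw [EE_empty]
    by_cases h1 : cfgOf ∅ ∈ A
    · have : A = univ := by
        ext ω; simp only [mem_univ, iff_true]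
        exact (h _ _ fun i hi => by simp at hi).1 h1
      rw [this, I1_mem (mem_univ _)]
      simp
    · have : A = ∅ := by
        ext ω; simp only [mem_empty_iff_false, iff_false]
        exact fun h' => h1 ((h _ _ fun i hi => by simp at hi).2 h')
      rw [this, I1_not (by simp)]
      simp
  | insert e J he ih =>
    have hd : ∀ b, DepOn {ω | upd e b ω ∈ A} (J : Set ι) := fun b =>
      dep_mono (depOn_upd h e b) (by
        intro i hi
        have := hi.1
        simp only [Finset.coe_insert, mem_insert_iff] at this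
        exact this.resolve_left hi.2)
    have t : ∀ b, EE J (fun c => (r c : ℝ)) (I1 {ω | upd e b ω ∈ A}) =
        EE J (fun c => (r c : ℝ)) (fun ω => I1 A (upd e b ω)) := fun b =>
      EE_congr fun ω => (I1_upd A e b ω).symm
    rw [EE_insert he, pm_split hI r (hD ι _ A h) e, ih (hd true), ih (hd false), t, t]

lemma upd_comm {e e' : ι} (h : e ≠ e') (b b' : Bool) (ω : ι → Bool) :
    upd e b (upd e' b' ω) = upd e' b' (upd e b ω) := by
  funext i
  by_cases h1 : i = e
  · subst h1
    rw [upd_self, upd_ne h, upd_self]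
  · by_cases h2 : i = e'
    · subst h2
      rw [upd_ne h1, upd_self, upd_self]
    · rw [upd_ne h1, upd_ne h2, upd_ne h2, upd_ne h1]

lemma upd_upd (e : ι) (b b' : Bool) (ω : ι → Bool) : upd e b (upd e b' ω) = upd e b ω := by
  funext i
  by_cases h1 : i = e
  · subst h1; rw [upd_self, upd_self]
  · rw [upd_ne h1, upd_ne h1, upd_ne h1]

/-- discrete derivative -/
noncomputable def DD (e : ι) (f : (ι → Bool) → ℝ) (ω : ι → Bool) : ℝ :=
  f (upd e true ω) - f (upd e false ω)

lemma EE_erase_indep [DecidableEq ι] {E : Finset ι} {e : ι} (he : e ∈ E) (ρ : ι → ℝ)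
    {f : (ι → Bool) → ℝ} (hf : ∀ b ω, f (upd e b ω) = f ω) :
    EE (E.erase e) ρ f = EE E ρ f := by
  rw [EE_split he ρ f, EE_congr (fun ω => hf true ω), EE_congr (fun ω => hf false ω)]
  ring

/-- the formula of Russo -/
theorem russo [DecidableEq ι] (E : Finset ι) (f : (ι → Bool) → ℝ) (ρ : ℝ → ι → ℝ) (ρ' : ι → ℝ)
    (t : ℝ) (hρ : ∀ c, HasDerivAt (fun t => ρ t c) (ρ' c) t) :
    HasDerivAt (fun t => EE E (ρ t) f) (∑ e ∈ E, ρ' e * EE (E.erase e) (ρ t) (DD e f)) t := by
  induction E using Finset.induction_on generalizing f with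
  | empty =>
    have : (fun t => EE ∅ (ρ t) f) = fun _ : ℝ => f (cfgOf ∅) := by
      funext p; exact EE_empty _ f
    rw [this]
    simpa using hasDerivAt_const t (f (cfgOf ∅))
  | insert e E he ih =>
    have h1 := ih (fun ω => f (upd e true ω))
    have h0 := ih (fun ω => f (upd e false ω))
    have hfun : (fun t => EE (insert e E) (ρ t) f) = fun t =>
        ρ t e * EE E (ρ t) (fun ω => f (upd e true ω)) +
        (1 - ρ t e) * EE E (ρ t) (fun ω => f (upd e false ω)) := by
      funext p; exact EE_insert he _ f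
    rw [hfun]
    have hd := ((hρ e).mul h1).add (((hasDerivAt_const t (1 : ℝ)).sub (hρ e)).mul h0)
    refine hd.congr_deriv ?_
    rw [Finset.sum_insert he, Finset.erase_insert he]
    have e1 : EE E (ρ t) (DD e f) = EE E (ρ t) (fun ω => f (upd e true ω)) -
        EE E (ρ t) (fun ω => f (upd e false ω)) := EE_sub _ _
    have e2 : ∑ x ∈ E, ρ' x * EE ((insert e E).erase x) (ρ t) (DD x f) =
        ρ t e * ∑ x ∈ E, ρ' x * EE (E.erase x) (ρ t) (DD x (fun ω => f (upd e true ω))) +
        (1 - ρ t e) * ∑ x ∈ E, ρ' x *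
          EE (E.erase x) (ρ t) (DD x (fun ω => f (upd e false ω))) := by
      rw [Finset.mul_sum, Finset.mul_sum, ← Finset.sum_add_distrib]
      refine Finset.sum_congr rfl fun x hx => ?_
      have hxe : x ≠ e := fun h => he (h ▸ hx)
      rw [Finset.erase_insert_of_ne (Ne.symm hxe)]
      rw [EE_insert (by simp [he])]
      have c1 : EE (E.erase x) (ρ t) (fun ω => DD x f (upd e true ω)) =
          EE (E.erase x) (ρ t) (DD x (fun ω => f (upd e true ω))) := by
        refine EE_congr fun ω => ?_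
        unfold DD
        rw [upd_comm hxe, upd_comm hxe]
      have c0 : EE (E.erase x) (ρ t) (fun ω => DD x f (upd e false ω)) =
          EE (E.erase x) (ρ t) (DD x (fun ω => f (upd e false ω))) := by
        refine EE_congr fun ω => ?_
        unfold DD
        rw [upd_comm hxe, upd_comm hxe]
      rw [c1, c0]
      ring
    rw [e1, e2]
    simp only [Pi.sub_apply]
    ring

/-- the pivotal event -/
def Piv (A : Set (ι → Bool)) (e : ι) : Set (ι → Bool) :=
  {ω | upd e true ω ∈ A ∧ upd e false ω ∉ A}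

lemma inc_upd {A : Set (ι → Bool)} (hA : Inc A) (e : ι) (ω : ι → Bool)
    (h : upd e false ω ∈ A) : upd e true ω ∈ A := by
  refine hA _ _ ?_ h
  intro i
  by_cases hi : i = e
  · subst hi; rw [upd_self, upd_self]; simp
  · rw [upd_ne hi, upd_ne hi]; exact id

lemma DD_I1 {A : Set (ι → Bool)} (hA : Inc A) (e : ι) (ω : ι → Bool) :
    DD e (I1 A) ω = I1 (Piv A e) ω := by
  unfold DD
  by_cases h1 : upd e true ω ∈ A
  · by_cases h0 : upd e false ω ∈ A
    · rw [I1_mem h1, I1_mem h0, I1_not]
      · ring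
      · exact fun h => h.2 h0
    · rw [I1_mem h1, I1_not h0, I1_mem]
      · ring
      · exact ⟨h1, h0⟩
  · have h0 : upd e false ω ∉ A := fun h => h1 (inc_upd hA e ω h)
    rw [I1_not h1, I1_not h0, I1_not]
    · ring
    · exact fun h => h1 h.1

lemma Piv_upd (A : Set (ι → Bool)) (e : ι) (b : Bool) (ω : ι → Bool) :
    upd e b ω ∈ Piv A e ↔ ω ∈ Piv A e := by
  unfold Piv
  simp only [mem_setOf_eq, upd_upd]

lemma dep_Piv {J : Set ι} {A : Set (ι → Bool)} (h : DepOn A J) (e : ι) : DepOn (Piv A e) J := by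
  intro ω ω' hω
  have key : ∀ b, (upd e b ω ∈ A ↔ upd e b ω' ∈ A) := by
    intro b
    refine h _ _ fun i hi => ?_
    by_cases hie : i = e
    · subst hie; rw [upd_self, upd_self]
    · rw [upd_ne hie, upd_ne hie]; exact hω i hi
  unfold Piv
  simp only [mem_setOf_eq, key]

lemma piv_closed (hI : S_indep) (hD : S_depmeas) (r : ι → unitInterval) {J : Finset ι}
    {A : Set (ι → Bool)} (h : DepOn A (J : Set ι)) {e : ι} (he : e ∈ J) :
    (pm r).real (Piv A e ∩ {ω | ω e = false}) = (1 - r e) * (pm r).real (Piv A e) := by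
  have hd : DepOn (Piv A e ∩ {ω | ω e = false}) (J : Set ι) := by
    refine dep_inter (dep_Piv h e) ?_
    intro ω ω' hω
    simp only [mem_setOf_eq, hω e he]
  rw [pm_split hI r (hD ι _ _ hd) e]
  have e1 : {ω : ι → Bool | upd e true ω ∈ Piv A e ∩ {ω | ω e = false}} = ∅ := by
    ext ω
    simp [upd_self]
  have e0 : {ω : ι → Bool | upd e false ω ∈ Piv A e ∩ {ω | ω e = false}} = Piv A e := by
    ext ω
    simp only [mem_setOf_eq, mem_inter_iff, upd_self, and_true]
    exact Piv_upd A e false ω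
  rw [e1, e0]
  simp

/-- derivative of the probability of an increasing event -/
lemma russo_pm (hI : S_indep) (hD : S_depmeas) (r : ι → unitInterval) {J : Finset ι}
    {A : Set (ι → Bool)} (h : DepOn A (J : Set ι)) (uA : Inc A) (ρ : ℝ → ι → ℝ) (ρ' : ι → ℝ)
    (t : ℝ) (hρ : ∀ c, HasDerivAt (fun t => ρ t c) (ρ' c) t) (hr : ∀ c, ρ t c = r c) :
    HasDerivAt (fun t => EE J (ρ t) (I1 A)) (∑ e ∈ J, ρ' e * (pm r).real (Piv A e)) t := by
  classical
  refine (russo J (I1 A) ρ ρ' t hρ).congr_deriv ?_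
  refine Finset.sum_congr rfl fun e he => ?_
  have hr' : ρ t = fun c => (r c : ℝ) := funext hr
  have : EE (J.erase e) (ρ t) (DD e (I1 A)) = (pm r).real (Piv A e) := by
    rw [pm_eq_EE hI hD r (dep_Piv h e), ← EE_erase_indep he _ (f := I1 (Piv A e)), hr']
    · exact EE_congr fun ω => DD_I1 uA e ω
    · intro b ω
      by_cases h1 : ω ∈ Piv A e
      · rw [I1_mem h1, I1_mem ((Piv_upd A e b ω).2 h1)]
      · rw [I1_not h1, I1_not (fun h => h1 ((Piv_upd A e b ω).1 h))]
  rw [this]

end Pool.Agent.W424.PC
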